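import Mathlib

namespace Pool.Agent.Results.MP_faa006_lc.No

/-- Terms over the signature `0, 1, ⊥, -, +, ·, ÷` with variables indexed by `ℕ`. -/
inductive Tm
  | var (n : ℕ) | zero | one | bot | neg (s : Tm) | add (s t : Tm) | mul (s t : Tm)
  | div (s t : Tm)

open Classical in
/-- Value of a term in the enlargement `R ∪ {⊥}` (`none` is `⊥`) with inverse based common
division. -/
noncomputable def Tm.eval {R : Type} [CommRing R] (v : ℕ → Option R) : Tm → Option R
  | .var n => v n
  | .zero => some 0
  | .one => some 1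
  | .bot => none
  | .neg s => (s.eval v).map fun x => -x
  | .add s t => (s.eval v).bind fun x => (t.eval v).map fun y => x + y
  | .mul s t => (s.eval v).bind fun x => (t.eval v).map fun y => x * y
  | .div s t => (s.eval v).bind fun x => (t.eval v).bind fun y =>
      if IsUnit y then some (x * Ring.inverse y) else none

/-- The conditional equation with premises `l` and conclusion `e` holds in the enlargement of `R`. -/
def Valid (R : Type) [CommRing R] (l : List (Tm × Tm)) (e : Tm × Tm) : Prop :=
  ∀ v : ℕ → Option R, (∀ p ∈ l, p.1.eval v = p.2.eval v) → e.1.eval v = e.2.eval v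

theorem result : ∃ (R : Type) (_ : CommRing R), (∃ x y : R, x ≠ 0 ∧ y ≠ 0 ∧ x * y = 0) ∧
    ∀ (l : List (Tm × Tm)) (e : Tm × Tm),
      (∀ (D : Type) [CommRing D] [IsDomain D], Valid D l e) → Valid R l e := by
  have key : ∀ (R D : Type) [CommRing R] [CommRing D] (f : R →+* D),
      (∀ x, IsUnit (f x) → IsUnit x) → ∀ (v : ℕ → Option R) (t : Tm),
        t.eval (fun n => (v n).map f) = (t.eval v).map f := by
    intro R D _ _ f hf v t
    induction t with
    | var n => rfl
    | zero => simp [Tm.eval]
    | one => simp [Tm.eval]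
    | bot => rfl
    | neg s ih => simp only [Tm.eval, ih]; cases s.eval v <;> simp
    | add s t ih ih' => simp only [Tm.eval, ih, ih']; cases s.eval v <;> cases t.eval v <;> simp
    | mul s t ih ih' => simp only [Tm.eval, ih, ih']; cases s.eval v <;> cases t.eval v <;> simp
    | div s t ih ih' =>
      simp only [Tm.eval, ih, ih']
      rcases s.eval v with _ | x <;> rcases t.eval v with _ | y <;> simp only [Option.map_none,
        Option.map_some, Option.bind_none, Option.bind_some]
      by_cases hy : IsUnit y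
      · rw [if_pos hy, if_pos (hy.map f), Option.map_some, map_mul]
        obtain ⟨u, rfl⟩ := hy
        rw [Ring.inverse_unit, show f u = Units.map (f : R →* D) u from rfl, Ring.inverse_unit]
        rfl
      · rw [if_neg hy, if_neg fun h => hy (hf y h), Option.map_none]
  let c : PowerSeries ℚ →+* ℚ := PowerSeries.constantCoeff
  let S : Subring (PowerSeries ℚ × PowerSeries ℚ) :=
    (c.comp (RingHom.fst _ _)).eqLocus (c.comp (RingHom.snd _ _))
  have hS : ∀ x : S, c x.1.1 = c x.1.2 := fun x => x.2
  have hu : ∀ x : S, c x.1.1 ≠ 0 → IsUnit x := fun x hx => by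
    have hx' : c x.1.2 ≠ 0 := hS x ▸ hx
    refine IsUnit.of_mul_eq_one ⟨(x.1.1⁻¹, x.1.2⁻¹), ?_⟩ (Subtype.ext (Prod.ext
      (PowerSeries.mul_inv_cancel _ hx) (PowerSeries.mul_inv_cancel _ hx')))
    change c x.1.1⁻¹ = c x.1.2⁻¹
    rw [PowerSeries.constantCoeff_inv, PowerSeries.constantCoeff_inv]
    exact congrArg _ (hS x)
  let f : S →+* PowerSeries ℚ := (RingHom.fst _ _).comp S.subtype
  let g : S →+* PowerSeries ℚ := (RingHom.snd _ _).comp S.subtype
  have hf : ∀ x, IsUnit (f x) → IsUnit x := fun x h => hu x (h.map c).ne_zero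
  have hg : ∀ x, IsUnit (g x) → IsUnit x := fun x h => hu x (hS x ▸ (h.map c).ne_zero)
  refine ⟨S, inferInstance, ⟨⟨(PowerSeries.X, 0), by change c PowerSeries.X = c 0; simp [c]⟩,
    ⟨(0, PowerSeries.X), by change c 0 = c PowerSeries.X; simp [c]⟩,
    fun h => PowerSeries.X_ne_zero (congrArg f h), fun h => PowerSeries.X_ne_zero (congrArg g h),
    Subtype.ext (by simp)⟩, fun l e H v hv => ?_⟩
  have h1 := H _ (fun n => (v n).map f) fun p hp => by rw [key _ _ f hf, key _ _ f hf, hv p hp]
  have h2 := H _ (fun n => (v n).map g) fun p hp => by rw [key _ _ g hg, key _ _ g hg, hv p hp]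
  rw [key _ _ f hf, key _ _ f hf] at h1
  rw [key _ _ g hg, key _ _ g hg] at h2
  revert h1 h2
  rcases e.1.eval v with _ | x <;> rcases e.2.eval v with _ | y <;> simp
  exact fun h1 h2 => Subtype.ext (Prod.ext h1 h2)

end Pool.Agent.Results.MP_faa006_lc.No
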